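import Pool.Agent.H983R2.GC.Defs

set_option autoImplicit false

namespace Pool.Agent.H983R2.GC

open Finset

section TB

variable {Ω V C : Type} [Fintype Ω] [Fintype V] [DecidableEq V] [DecidableEq C]

theorem tb_mem (X : Ω → V → C) (S : Finset V) (ω ξ : Ω) :
    ξ ∈ atom X S ω ↔ ∀ v ∈ S, X ξ v = X ω v := by
  simp [atom]

theorem tb_self (X : Ω → V → C) (S : Finset V) (ω : Ω) : ω ∈ atom X S ω := by
  rw [tb_mem]; intro v _; rfl

theorem tb_symm (X : Ω → V → C) (S : Finset V) (ω ξ : Ω) :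
    ξ ∈ atom X S ω ↔ ω ∈ atom X S ξ := by
  rw [tb_mem, tb_mem]
  exact ⟨fun h v hv => (h v hv).symm, fun h v hv => (h v hv).symm⟩

theorem tb_eq (X : Ω → V → C) (S : Finset V) {ω ξ : Ω} (h : ξ ∈ atom X S ω) :
    atom X S ξ = atom X S ω := by
  rw [tb_mem] at h
  ext ζ
  rw [tb_mem, tb_mem]
  constructor
  · intro h' v hv
    rw [h' v hv, h v hv]
  · intro h' v hv
    rw [h' v hv, h v hv]

theorem tb_sub (X : Ω → V → C) {S T : Finset V} (hST : T ⊆ S) (ω : Ω) :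
    atom X S ω ⊆ atom X T ω := by
  intro ξ hξ
  rw [tb_mem] at *
  exact fun v hv => hξ v (hST hv)

theorem tb_card_pos (X : Ω → V → C) (S : Finset V) (ω : Ω) :
    0 < ((atom X S ω).card : ℝ) := by
  have : 0 < (atom X S ω).card := Finset.card_pos.2 ⟨ω, tb_self X S ω⟩
  exact_mod_cast this

theorem tb_swap (X : Ω → V → C) (S : Finset V) (h : Ω → Ω → ℝ) :
    ∑ ω, ∑ ξ ∈ atom X S ω, h ω ξ = ∑ ω, ∑ ξ ∈ atom X S ω, h ξ ω := by
  rw [Finset.sum_comm' (s := univ) (t := fun ω => atom X S ω) (t' := univ)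
    (s' := fun ω => atom X S ω)]
  intro x y
  simp only [Finset.mem_univ, true_and, and_true]
  exact tb_symm X S x y

theorem tb_meas (X : Ω → V → C) (S : Finset V) (h : Ω → ℝ) {ω ξ : Ω} (hξ : ξ ∈ atom X S ω) :
    cE X S h ξ = cE X S h ω := by
  unfold cE
  rw [tb_eq X S hξ]

theorem tb_avg (X : Ω → V → C) (S : Finset V) (h : Ω → ℝ) :
    ∑ ω, cE X S h ω = ∑ ω, h ω := by
  unfold cE
  simp_rw [Finset.sum_div]
  rw [tb_swap X S (fun ω ξ => h ξ / ((atom X S ω).card : ℝ))]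
  apply Finset.sum_congr rfl
  intro ω _
  have : ∀ ξ ∈ atom X S ω, h ω / ((atom X S ξ).card : ℝ) = h ω / ((atom X S ω).card : ℝ) := by
    intro ξ hξ
    rw [tb_eq X S hξ]
  rw [Finset.sum_congr rfl this, Finset.sum_const, nsmul_eq_mul]
  have := tb_card_pos X S ω
  field_simp

theorem tb_pull (X : Ω → V → C) (S : Finset V) (h k : Ω → ℝ)
    (hk : ∀ ω ξ, ξ ∈ atom X S ω → k ξ = k ω) :
    ∑ ω, cE X S h ω * k ω = ∑ ω, h ω * k ω := by
  rw [← tb_avg X S (fun ω => h ω * k ω)]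
  apply Finset.sum_congr rfl
  intro ω _
  unfold cE
  rw [div_mul_eq_mul_div, Finset.sum_mul]
  congr 1
  apply Finset.sum_congr rfl
  intro ξ hξ
  have := hk ω ξ hξ
  simp only [this]

theorem tb_pos (X : Ω → V → C) (S : Finset V) (f : Ω → ℝ) (hf : ∀ ω, 0 < f ω) (ω : Ω) :
    0 < cE X S f ω := by
  unfold cE
  exact div_pos (Finset.sum_pos (fun ξ _ => hf ξ) ⟨ω, tb_self X S ω⟩) (tb_card_pos X S ω)

theorem tb_nonneg (X : Ω → V → C) (S : Finset V) (f : Ω → ℝ) (hf : ∀ ω, 0 ≤ f ω) (ω : Ω) :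
    0 ≤ cE X S f ω := by
  unfold cE
  exact div_nonneg (Finset.sum_nonneg (fun ξ _ => hf ξ)) (tb_card_pos X S ω).le

theorem tb_jensen_set {ι : Type} (W : Finset ι) (hW : 0 < (W.card : ℝ)) (h : ι → ℝ) :
    ((∑ ξ ∈ W, h ξ) / (W.card : ℝ)) ^ 2 ≤ (∑ ξ ∈ W, h ξ ^ 2) / (W.card : ℝ) := by
  rw [div_pow, div_le_div_iff₀ (by positivity) hW]
  have h1 : (∑ ξ ∈ W, h ξ) ^ 2 ≤ (W.card : ℝ) * ∑ ξ ∈ W, h ξ ^ 2 := sq_sum_le_card_mul_sum_sq
  calc (∑ ξ ∈ W, h ξ) ^ 2 * (W.card : ℝ) ≤ ((W.card : ℝ) * ∑ ξ ∈ W, h ξ ^ 2) * (W.card : ℝ) :=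
        mul_le_mul_of_nonneg_right h1 hW.le
    _ = (∑ ξ ∈ W, h ξ ^ 2) * (W.card : ℝ) ^ 2 := by ring

theorem tb_jensen (X : Ω → V → C) (S : Finset V) (h : Ω → ℝ) (ω : Ω) :
    (cE X S h ω) ^ 2 ≤ cE X S (fun ξ => h ξ ^ 2) ω :=
  tb_jensen_set _ (tb_card_pos X S ω) h

theorem tb_univ (X : Ω → V → C) (hX : Function.Injective X) (f : Ω → ℝ) (ω : Ω) :
    cE X univ f ω = f ω := by
  have : atom X univ ω = {ω} := by
    ext ξ
    rw [tb_mem, Finset.mem_singleton]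
    constructor
    · intro h
      apply hX
      funext v
      exact h v (Finset.mem_univ v)
    · rintro rfl v _
      rfl
  unfold cE
  rw [this]
  simp

theorem tb_sq (X : Ω → V → C) (S : Finset V) (h : Ω → ℝ) :
    ∑ ω, h ω * cE X S h ω = ∑ ω, (cE X S h ω) ^ 2 := by
  have h1 := tb_pull X S h (fun ω => cE X S h ω) (fun ω ξ hξ => tb_meas X S h hξ)
  rw [← h1]
  apply Finset.sum_congr rfl
  intro ω _
  ring

theorem tb_var (X : Ω → V → C) (S : Finset V) (h : Ω → ℝ) :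
    ∑ ω, (h ω - cE X S h ω) ^ 2 = ∑ ω, h ω ^ 2 - ∑ ω, (cE X S h ω) ^ 2 := by
  have h1 := tb_sq X S h
  have h2 : ∑ ω, (h ω - cE X S h ω) ^ 2 =
      ∑ ω, h ω ^ 2 - 2 * ∑ ω, h ω * cE X S h ω + ∑ ω, (cE X S h ω) ^ 2 := by
    rw [Finset.mul_sum, ← Finset.sum_sub_distrib, ← Finset.sum_add_distrib]
    apply Finset.sum_congr rfl
    intro ω _
    ring
  rw [h2, h1]
  ring

theorem tb_sqrt_sum (X : Ω → V → C) (S : Finset V) (f : Ω → ℝ) (hf : ∀ ω, 0 < f ω) :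
    ∑ ω, (Real.sqrt (f ω) - cE X S (fun ξ => Real.sqrt (f ξ)) ω) ^ 2 =
      ∑ ω, (Real.sqrt (cE X S f ω) ^ 2 - (cE X S (fun ξ => Real.sqrt (f ξ)) ω) ^ 2) := by
  rw [tb_var, Finset.sum_sub_distrib]
  congr 1
  have h1 : ∀ ω, Real.sqrt (f ω) ^ 2 = f ω := fun ω => Real.sq_sqrt (hf ω).le
  have h2 : ∀ ω, Real.sqrt (cE X S f ω) ^ 2 = cE X S f ω :=
    fun ω => Real.sq_sqrt (tb_pos X S f hf ω).le
  simp_rw [h1, h2]
  exact (tb_avg X S f).symm

theorem tb_gm_le (X : Ω → V → C) (S : Finset V) (f : Ω → ℝ) (hf : ∀ ω, 0 < f ω) (ω : Ω) :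
    cE X S (fun ξ => Real.sqrt (f ξ)) ω ≤ Real.sqrt (cE X S f ω) := by
  apply Real.le_sqrt_of_sq_le
  refine (tb_jensen X S _ ω).trans (le_of_eq ?_)
  congr 1
  funext ξ
  exact Real.sq_sqrt (hf ξ).le

theorem tb_gm (X : Ω → V → C) (S : Finset V) (f : Ω → ℝ) (hf : ∀ ω, 0 < f ω) :
    ∑ ω, (Real.sqrt (cE X S f ω) - cE X S (fun ξ => Real.sqrt (f ξ)) ω) ^ 2 ≤
    ∑ ω, (Real.sqrt (f ω) - cE X S (fun ξ => Real.sqrt (f ξ)) ω) ^ 2 := by
  rw [tb_sqrt_sum X S f hf]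
  apply Finset.sum_le_sum
  intro ω _
  have h1 := tb_gm_le X S f hf ω
  have h2 : 0 ≤ cE X S (fun ξ => Real.sqrt (f ξ)) ω :=
    tb_nonneg X S _ (fun ξ => Real.sqrt_nonneg _) ω
  nlinarith

theorem tb_ent_lower (X : Ω → V → C) (hX : Function.Injective X) (f : Ω → ℝ)
    (hf : ∀ ω, 0 < f ω) (S : Finset V) :
    ∑ ω, (Real.sqrt (f ω) - cE X S (fun ξ => Real.sqrt (f ξ)) ω) ^ 2 ≤
      hh X f univ - hh X f S := by
  have hs : ∀ ω, Real.sqrt (f ω) ^ 2 = f ω := fun ω => Real.sq_sqrt (hf ω).le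
  have hg : ∀ ω, Real.sqrt (cE X S f ω) ^ 2 = cE X S f ω :=
    fun ω => Real.sq_sqrt (tb_pos X S f hf ω).le
  have h1 : hh X f univ - hh X f S =
      ∑ ω, f ω * (Real.log (f ω) - Real.log (cE X S f ω)) := by
    unfold hh
    rw [← Finset.sum_sub_distrib]
    apply Finset.sum_congr rfl
    intro ω _
    rw [tb_univ X hX]
    ring
  have h2 : ∀ ω, 2 * f ω - 2 * (Real.sqrt (f ω) * Real.sqrt (cE X S f ω)) ≤
      f ω * (Real.log (f ω) - Real.log (cE X S f ω)) := by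
    intro ω
    have hfp := hf ω
    have hEp := tb_pos X S f hf ω
    have hsp : 0 < Real.sqrt (f ω) := Real.sqrt_pos.2 hfp
    have hgp : 0 < Real.sqrt (cE X S f ω) := Real.sqrt_pos.2 hEp
    have h3 : Real.log (Real.sqrt (cE X S f ω) / Real.sqrt (f ω)) ≤
        Real.sqrt (cE X S f ω) / Real.sqrt (f ω) - 1 :=
      Real.log_le_sub_one_of_pos (div_pos hgp hsp)
    rw [Real.log_div hgp.ne' hsp.ne', Real.log_sqrt hEp.le, Real.log_sqrt hfp.le] at h3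
    have h4 := mul_le_mul_of_nonneg_left h3 (by linarith : (0:ℝ) ≤ 2 * f ω)
    have h5 : 2 * f ω * (Real.sqrt (cE X S f ω) / Real.sqrt (f ω) - 1) =
        2 * (Real.sqrt (f ω) * Real.sqrt (cE X S f ω)) - 2 * f ω := by
      have h6 : f ω / Real.sqrt (f ω) = Real.sqrt (f ω) := by
        rw [div_eq_iff hsp.ne', ← sq, hs]
      calc 2 * f ω * (Real.sqrt (cE X S f ω) / Real.sqrt (f ω) - 1) =
          2 * ((f ω / Real.sqrt (f ω)) * Real.sqrt (cE X S f ω)) - 2 * f ω := by ring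
        _ = _ := by rw [h6]
    rw [h5] at h4
    nlinarith
  rw [h1, tb_sqrt_sum X S f hf]
  refine le_trans ?_ (Finset.sum_le_sum (fun ω _ => h2 ω))
  have h7 : ∑ ω, Real.sqrt (f ω) * Real.sqrt (cE X S f ω) =
      ∑ ω, cE X S (fun ξ => Real.sqrt (f ξ)) ω * Real.sqrt (cE X S f ω) := by
    rw [tb_pull X S (fun ξ => Real.sqrt (f ξ)) (fun ω => Real.sqrt (cE X S f ω))]
    intro ω ξ hξ
    rw [tb_meas X S f hξ]
  have h8 : ∑ ω, f ω = ∑ ω, Real.sqrt (cE X S f ω) ^ 2 := by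
    simp_rw [hg]
    exact (tb_avg X S f).symm
  have h9 : ∑ ω, (2 * f ω - 2 * (Real.sqrt (f ω) * Real.sqrt (cE X S f ω))) =
      ∑ ω, (2 * Real.sqrt (cE X S f ω) ^ 2 -
        2 * (cE X S (fun ξ => Real.sqrt (f ξ)) ω * Real.sqrt (cE X S f ω))) := by
    rw [Finset.sum_sub_distrib, Finset.sum_sub_distrib, ← Finset.mul_sum, ← Finset.mul_sum,
      ← Finset.mul_sum, ← Finset.mul_sum, h7, h8]
  rw [h9]
  apply Finset.sum_le_sum
  intro ω _
  nlinarith [sq_nonneg (Real.sqrt (cE X S f ω) - cE X S (fun ξ => Real.sqrt (f ξ)) ω)]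

theorem tb_tower (X : Ω → V → C) {S T : Finset V} (hST : T ⊆ S) (f : Ω → ℝ) (ω : Ω) :
    cE X T (fun ξ => cE X S f ξ) ω = cE X T f ω := by
  classical
  have h := tb_pull X S f (fun ξ => if ξ ∈ atom X T ω then (1 : ℝ) else 0) (by
    intro ζ ξ hξ
    have h1 := tb_eq X T (tb_sub X hST ζ hξ)
    have h2 : ξ ∈ atom X T ω ↔ ζ ∈ atom X T ω := by
      rw [tb_symm, h1, ← tb_symm]
    simp only [h2])
  simp only [mul_ite, mul_one, mul_zero, ← Finset.sum_filter] at h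
  have h3 : (univ.filter fun ξ => ξ ∈ atom X T ω) = atom X T ω := by
    ext ξ; simp
  rw [h3] at h
  unfold cE at h ⊢
  rw [h]

/-- entropy of a coarse function bounded by the variance of the square root -/
theorem tb_a (X : Ω → V → C) (β : ℝ) (hβ : 0 < β) (hM : MargB X β) (f : Ω → ℝ)
    (hf : ∀ ω, 0 < f ω) (T : Finset V) (v : V) (hv : v ∉ T) :
    hh X f (insert v T) - hh X f T ≤ (4 / β) *
      ∑ ω, (Real.sqrt (cE X (insert v T) f ω) -
        cE X T (fun ξ => Real.sqrt (cE X (insert v T) f ξ)) ω) ^ 2 := by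
  have hTA : T ⊆ insert v T := Finset.subset_insert v T
  set F : Ω → ℝ := fun ω => cE X (insert v T) f ω with hF
  set E : Ω → ℝ := fun ω => cE X T f ω with hE
  set g : Ω → ℝ := fun ω => Real.sqrt (F ω) with hgdef
  set c : Ω → ℝ := fun ω => cE X T g ω with hc
  have hFpos : ∀ ω, 0 < F ω := fun ω => tb_pos X _ f hf ω
  have hEpos : ∀ ω, 0 < E ω := fun ω => tb_pos X _ f hf ω
  have hg2 : ∀ ω, g ω ^ 2 = F ω := fun ω => Real.sq_sqrt (hFpos ω).le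
  have hg0 : ∀ ω, 0 ≤ g ω := fun ω => Real.sqrt_nonneg _
  have hc0 : ∀ ω, 0 ≤ c ω := fun ω => tb_nonneg X T g hg0 ω
  have htow : ∀ ω, cE X T F ω = E ω := fun ω => tb_tower X hTA f ω
  have hEmeas : ∀ ω ξ, ξ ∈ atom X T ω → E ξ = E ω := fun ω ξ hξ => tb_meas X T f hξ
  have hcmeas : ∀ ω ξ, ξ ∈ atom X T ω → c ξ = c ω := fun ω ξ hξ => tb_meas X T g hξ
  -- first form of the difference
  have h1 : hh X f (insert v T) - hh X f T =
      ∑ ω, F ω * (Real.log (F ω) - Real.log (E ω)) := by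
    have h2 := tb_pull X (insert v T) f (fun ω => Real.log (F ω) - Real.log (E ω)) (by
      intro ω ξ hξ
      have e1 : F ξ = F ω := tb_meas X (insert v T) f hξ
      have e2 : E ξ = E ω := hEmeas ω ξ (tb_sub X hTA ω hξ)
      simp only [e1, e2])
    rw [h2]
    unfold hh
    rw [← Finset.sum_sub_distrib]
    apply Finset.sum_congr rfl
    intro ω _
    simp only [hF, hE]
    ring
  have h3 : ∀ ω, F ω * (Real.log (F ω) - Real.log (E ω)) ≤ F ω ^ 2 / E ω - F ω := by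
    intro ω
    have h4 : Real.log (F ω / E ω) ≤ F ω / E ω - 1 :=
      Real.log_le_sub_one_of_pos (div_pos (hFpos ω) (hEpos ω))
    rw [Real.log_div (hFpos ω).ne' (hEpos ω).ne'] at h4
    have h5 := mul_le_mul_of_nonneg_left h4 (hFpos ω).le
    calc F ω * (Real.log (F ω) - Real.log (E ω)) ≤ F ω * (F ω / E ω - 1) := h5
      _ = F ω ^ 2 / E ω - F ω := by ring
  -- sum identities
  have h6 : ∑ ω, F ω * (c ω ^ 2 / E ω) = ∑ ω, c ω ^ 2 := by
    rw [← tb_pull X T F (fun ω => c ω ^ 2 / E ω) (by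
      intro ω ξ hξ
      simp only [hEmeas ω ξ hξ, hcmeas ω ξ hξ])]
    apply Finset.sum_congr rfl
    intro ω _
    rw [htow]
    have := (hEpos ω).ne'
    field_simp
  have h7 : ∑ ω, F ω = ∑ ω, E ω := by
    rw [hF, hE]
    simp only
    rw [tb_avg, tb_avg]
  have h8 : ∑ ω, (F ω ^ 2 / E ω - F ω) ≤ ∑ ω, (F ω - c ω ^ 2) ^ 2 / E ω := by
    have h9 : ∑ ω, (F ω - c ω ^ 2) ^ 2 / E ω =
        ∑ ω, F ω ^ 2 / E ω - 2 * ∑ ω, F ω * (c ω ^ 2 / E ω) + ∑ ω, c ω ^ 4 / E ω := by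
      rw [Finset.mul_sum, ← Finset.sum_sub_distrib, ← Finset.sum_add_distrib]
      apply Finset.sum_congr rfl
      intro ω _
      ring
    have h10 : 0 ≤ ∑ ω, (E ω - c ω ^ 2) ^ 2 / E ω :=
      Finset.sum_nonneg fun ω _ => div_nonneg (sq_nonneg _) (hEpos ω).le
    have h11 : ∑ ω, (E ω - c ω ^ 2) ^ 2 / E ω =
        ∑ ω, E ω - 2 * ∑ ω, c ω ^ 2 + ∑ ω, c ω ^ 4 / E ω := by
      rw [Finset.mul_sum, ← Finset.sum_sub_distrib, ← Finset.sum_add_distrib]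
      apply Finset.sum_congr rfl
      intro ω _
      have := (hEpos ω).ne'
      field_simp
      ring
    rw [h9, h6, Finset.sum_sub_distrib, h7]
    linarith
  have h12 : ∀ ω, (F ω - c ω ^ 2) ^ 2 / E ω ≤ (4 / β) * (g ω - c ω) ^ 2 := by
    intro ω
    -- β F ≤ E
    have hb1 : β * F ω ≤ E ω := by
      have e1 : E ω = (∑ ξ ∈ atom X T ω, F ξ) / ((atom X T ω).card : ℝ) := (htow ω).symm
      have e2 : ((atom X (insert v T) ω).card : ℝ) * F ω ≤ ∑ ξ ∈ atom X T ω, F ξ := by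
        calc ((atom X (insert v T) ω).card : ℝ) * F ω = ∑ ξ ∈ atom X (insert v T) ω, F ξ := by
              rw [Finset.sum_congr rfl (fun ξ hξ => tb_meas X (insert v T) f hξ),
                Finset.sum_const, nsmul_eq_mul]
          _ ≤ _ := Finset.sum_le_sum_of_subset_of_nonneg (tb_sub X hTA ω)
              (fun ξ _ _ => (hFpos ξ).le)
      have e3 := hM T v ω hv
      rw [e1, le_div_iff₀ (tb_card_pos X T ω)]
      calc β * F ω * ((atom X T ω).card : ℝ) = (β * ((atom X T ω).card : ℝ)) * F ω := by ring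
        _ ≤ ((atom X (insert v T) ω).card : ℝ) * F ω :=
            mul_le_mul_of_nonneg_right e3 (hFpos ω).le
        _ ≤ _ := e2
    have hβ1 : β ≤ 1 := by
      have e3 := hM T v ω hv
      have e4 : ((atom X (insert v T) ω).card : ℝ) ≤ ((atom X T ω).card : ℝ) := by
        exact_mod_cast Finset.card_le_card (tb_sub X hTA ω)
      have e5 := tb_card_pos X T ω
      by_contra h
      push Not at h
      nlinarith
    have hcE : c ω ^ 2 ≤ E ω := by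
      have := tb_jensen X T g ω
      simp only [hg2] at this
      rw [← htow ω]
      exact this
    have hcE' : β * c ω ^ 2 ≤ E ω := by
      nlinarith [sq_nonneg (c ω)]
    have hgc : β * (g ω + c ω) ^ 2 ≤ 4 * E ω := by
      have e1 : β * g ω ^ 2 ≤ E ω := by rw [hg2]; exact hb1
      nlinarith [mul_nonneg hβ.le (sq_nonneg (g ω - c ω))]
    rw [div_le_iff₀ (hEpos ω)]
    have e6 : (F ω - c ω ^ 2) ^ 2 = (g ω - c ω) ^ 2 * (g ω + c ω) ^ 2 := by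
      rw [← hg2]; ring
    rw [e6]
    have e7 : (g ω + c ω) ^ 2 ≤ 4 / β * E ω := by
      rw [div_mul_eq_mul_div, le_div_iff₀ hβ]
      linarith
    calc (g ω - c ω) ^ 2 * (g ω + c ω) ^ 2 ≤ (g ω - c ω) ^ 2 * (4 / β * E ω) :=
          mul_le_mul_of_nonneg_left e7 (sq_nonneg _)
      _ = 4 / β * (g ω - c ω) ^ 2 * E ω := by ring
  rw [h1, Finset.mul_sum]
  calc ∑ ω, F ω * (Real.log (F ω) - Real.log (E ω)) ≤ ∑ ω, (F ω ^ 2 / E ω - F ω) :=
        Finset.sum_le_sum fun ω _ => h3 ω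
    _ ≤ ∑ ω, (F ω - c ω ^ 2) ^ 2 / E ω := h8
    _ ≤ _ := Finset.sum_le_sum fun ω _ => h12 ω

/-- pair sums -/
noncomputable def tbPS (X : Ω → V → C) (T : Finset V) (h : Ω → Ω → ℝ) : ℝ :=
  ∑ ω, (∑ ω' ∈ atom X T ω, h ω ω') / ((atom X T ω).card : ℝ)

theorem tbPS_mono (X : Ω → V → C) (T : Finset V) (h k : Ω → Ω → ℝ)
    (hk : ∀ ω ω', ω' ∈ atom X T ω → h ω ω' ≤ k ω ω') : tbPS X T h ≤ tbPS X T k := by
  unfold tbPS
  apply Finset.sum_le_sum
  intro ω _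
  apply div_le_div_of_nonneg_right _ (tb_card_pos X T ω).le
  exact Finset.sum_le_sum fun ω' hω' => hk ω ω' hω'

theorem tbPS_left (X : Ω → V → C) (T : Finset V) (h : Ω → ℝ) :
    tbPS X T (fun ω _ => h ω) = ∑ ω, h ω := by
  unfold tbPS
  apply Finset.sum_congr rfl
  intro ω _
  rw [Finset.sum_const, nsmul_eq_mul]
  have := tb_card_pos X T ω
  field_simp

theorem tbPS_right (X : Ω → V → C) (T : Finset V) (h : Ω → ℝ) :
    tbPS X T (fun _ ω' => h ω') = ∑ ω, h ω :=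
  tb_avg X T h

theorem tbPS_add (X : Ω → V → C) (T : Finset V) (h k : Ω → Ω → ℝ) :
    tbPS X T (fun ω ω' => h ω ω' + k ω ω') = tbPS X T h + tbPS X T k := by
  unfold tbPS
  rw [← Finset.sum_add_distrib]
  apply Finset.sum_congr rfl
  intro ω _
  rw [Finset.sum_add_distrib, add_div]

theorem tb_var_le_PS (X : Ω → V → C) (T : Finset V) (g : Ω → ℝ) :
    ∑ ω, (g ω - cE X T g ω) ^ 2 ≤ tbPS X T (fun ω ω' => (g ω - g ω') ^ 2) := by
  unfold tbPS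
  apply Finset.sum_le_sum
  intro ω _
  have h1 : g ω - cE X T g ω =
      (∑ ω' ∈ atom X T ω, (g ω - g ω')) / ((atom X T ω).card : ℝ) := by
    rw [Finset.sum_sub_distrib, Finset.sum_const, nsmul_eq_mul, sub_div]
    unfold cE
    have := tb_card_pos X T ω
    field_simp
  rw [h1]
  exact tb_jensen_set _ (tb_card_pos X T ω) _

/-- the overlap sets -/
def tbW (X : Ω → V → C) (T : Finset V) (v : V) (ω ω' : Ω) : Finset Ω :=
  (atom X (insert v T) ω).filter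
    (fun ξ => ∃ ξ' : Ω, X ξ' v = X ω' v ∧ ∀ w, w ≠ v → X ξ' w = X ξ w)

open Classical in
noncomputable def tbphi (X : Ω → V → C) (v : V) (ω' ξ : Ω) : Ω :=
  if h : ∃ ξ' : Ω, X ξ' v = X ω' v ∧ ∀ w, w ≠ v → X ξ' w = X ξ w then h.choose else ξ

theorem tbphi_spec (X : Ω → V → C) (T : Finset V) (v : V) (ω ω' ξ : Ω)
    (h : ξ ∈ tbW X T v ω ω') :
    X (tbphi X v ω' ξ) v = X ω' v ∧ ∀ w, w ≠ v → X (tbphi X v ω' ξ) w = X ξ w := by
  unfold tbW at h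
  rw [Finset.mem_filter] at h
  unfold tbphi
  rw [dif_pos h.2]
  exact h.2.choose_spec

theorem tbphi_mem (X : Ω → V → C) (T : Finset V) (v : V) (hv : v ∉ T) (ω ω' ξ : Ω)
    (hω : ω' ∈ atom X T ω) (h : ξ ∈ tbW X T v ω ω') :
    tbphi X v ω' ξ ∈ tbW X T v ω' ω := by
  have hs := tbphi_spec X T v ω ω' ξ h
  unfold tbW at h ⊢
  rw [Finset.mem_filter, tb_mem] at h ⊢
  rw [tb_mem] at hω
  refine ⟨?_, ξ, h.1 v (Finset.mem_insert_self v T), fun w hw => (hs.2 w hw).symm⟩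
  intro w hw
  rcases Finset.mem_insert.1 hw with rfl | hw
  · exact hs.1
  · have hwv : w ≠ v := fun e => hv (e ▸ hw)
    rw [hs.2 w hwv, h.1 w (Finset.mem_insert_of_mem hw), hω w hw]

theorem tbphi_inv (X : Ω → V → C) (hX : Function.Injective X) (T : Finset V) (v : V)
    (hv : v ∉ T) (ω ω' ξ : Ω)
    (hω : ω' ∈ atom X T ω) (h : ξ ∈ tbW X T v ω ω') :
    tbphi X v ω (tbphi X v ω' ξ) = ξ := by
  have hs := tbphi_spec X T v ω ω' ξ h
  have hm := tbphi_mem X T v hv ω ω' ξ hω h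
  have hs2 := tbphi_spec X T v ω' ω _ hm
  apply hX
  funext w
  by_cases hw : w = v
  · subst hw
    rw [hs2.1]
    unfold tbW at h
    rw [Finset.mem_filter, tb_mem] at h
    exact (h.1 w (Finset.mem_insert_self w T)).symm
  · rw [hs2.2 w hw, hs.2 w hw]

theorem tbW_sum (X : Ω → V → C) (hX : Function.Injective X) (T : Finset V) (v : V)
    (hv : v ∉ T) (ω ω' : Ω) (hω : ω' ∈ atom X T ω) (s : Ω → ℝ) :
    ∑ ξ ∈ tbW X T v ω' ω, s ξ = ∑ ξ ∈ tbW X T v ω ω', s (tbphi X v ω' ξ) := by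
  symm
  have hω' : ω ∈ atom X T ω' := (tb_symm X T ω ω').1 hω
  refine Finset.sum_nbij' (fun ξ => tbphi X v ω' ξ) (fun ξ => tbphi X v ω ξ) ?_ ?_ ?_ ?_ ?_
  · intro ξ hξ
    exact tbphi_mem X T v hv ω ω' ξ hω hξ
  · intro ξ hξ
    exact tbphi_mem X T v hv ω' ω ξ hω' hξ
  · intro ξ hξ
    exact tbphi_inv X hX T v hv ω ω' ξ hω hξ
  · intro ξ hξ
    exact tbphi_inv X hX T v hv ω' ω ξ hω' hξ
  · intro ξ _
    rfl

theorem tbW_card (X : Ω → V → C) (hX : Function.Injective X) (T : Finset V) (v : V)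
    (hv : v ∉ T) (ω ω' : Ω) (hω : ω' ∈ atom X T ω) :
    ((tbW X T v ω' ω).card : ℝ) = ((tbW X T v ω ω').card : ℝ) := by
  have h := tbW_sum X hX T v hv ω ω' hω (fun _ => 1)
  simpa using h

theorem tbW_avg [Fintype C] (X : Ω → V → C) (δ : ℝ) (hδ : 0 < δ) (hO : OvB X δ) (T : Finset V)
    (v : V) (hv : v ∉ T) (ω ω' : Ω) (hω : ω' ∈ atom X T ω) (k : Ω → ℝ) (hk : ∀ ω, 0 ≤ k ω) :
    0 < ((tbW X T v ω ω').card : ℝ) ∧
    (∑ ξ ∈ tbW X T v ω ω', k ξ) / ((tbW X T v ω ω').card : ℝ) ≤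
      (1 / δ) * cE X (insert v T) k ω := by
  have hω2 := (tb_mem X T ω ω').1 hω
  have h1 : δ * ((atom X (insert v T) ω).card : ℝ) ≤ ((tbW X T v ω ω').card : ℝ) := by
    have h := hO T v ω ω' hv (fun w hw => (hω2 w hw).symm)
    unfold tbW
    exact h
  have h2 := tb_card_pos X (insert v T) ω
  have h3 : 0 < ((tbW X T v ω ω').card : ℝ) := lt_of_lt_of_le (mul_pos hδ h2) h1
  refine ⟨h3, ?_⟩
  have h4 : ∑ ξ ∈ tbW X T v ω ω', k ξ ≤ ∑ ξ ∈ atom X (insert v T) ω, k ξ :=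
    Finset.sum_le_sum_of_subset_of_nonneg (Finset.filter_subset _ _) (fun ξ _ _ => hk ξ)
  have h5 : 0 ≤ ∑ ξ ∈ atom X (insert v T) ω, k ξ := Finset.sum_nonneg fun ξ _ => hk ξ
  unfold cE
  rw [one_div, ← div_eq_inv_mul, div_div, div_le_div_iff₀ h3 (mul_pos h2 hδ)]
  calc (∑ ξ ∈ tbW X T v ω ω', k ξ) * (((atom X (insert v T) ω).card : ℝ) * δ)
      ≤ (∑ ξ ∈ atom X (insert v T) ω, k ξ) * (((atom X (insert v T) ω).card : ℝ) * δ) :=
        mul_le_mul_of_nonneg_right h4 (by positivity)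
    _ ≤ (∑ ξ ∈ atom X (insert v T) ω, k ξ) * ((tbW X T v ω ω').card : ℝ) :=
        mul_le_mul_of_nonneg_left (by linarith) h5

theorem tb_pair [Fintype C] (X : Ω → V → C) (hX : Function.Injective X) (δ : ℝ) (hδ : 0 < δ)
    (hO : OvB X δ) (T : Finset V)
    (v : V) (hv : v ∉ T) (s g m r : Ω → ℝ) (hm : ∀ ω, m ω = cE X (insert v T) s ω)
    (hr : ∀ ω, r ω = (s ω - cE X (univ.erase v) s ω) ^ 2)
    (ω ω' : Ω) (hω : ω' ∈ atom X T ω) :
    (g ω - g ω') ^ 2 ≤ 5 * ((g ω - m ω) ^ 2 +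
      ((1 / δ) * cE X (insert v T) (fun ξ => (s ξ - m ξ) ^ 2) ω +
      ((4 / δ) * cE X (insert v T) (fun ξ => ∑ ζ ∈ atom X (univ.erase v) ξ, r ζ) ω +
      ((1 / δ) * cE X (insert v T) (fun ξ => (s ξ - m ξ) ^ 2) ω' + (g ω' - m ω') ^ 2)))) := by
  have hω' : ω ∈ atom X T ω' := (tb_symm X T ω ω').1 hω
  -- t2
  have ht2 : ∀ a b : Ω, b ∈ atom X T a →
      (m a - (∑ ξ ∈ tbW X T v a b, s ξ) / ((tbW X T v a b).card : ℝ)) ^ 2 ≤
      (1 / δ) * cE X (insert v T) (fun ξ => (s ξ - m ξ) ^ 2) a := by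
    intro a b hab
    obtain ⟨h1, h2⟩ := tbW_avg X δ hδ hO T v hv a b hab (fun ξ => (s ξ - m ξ) ^ 2)
      (fun ξ => sq_nonneg _)
    refine le_trans ?_ h2
    have h3 : (∑ ξ ∈ tbW X T v a b, (s ξ - m ξ)) / ((tbW X T v a b).card : ℝ) =
        (∑ ξ ∈ tbW X T v a b, s ξ) / ((tbW X T v a b).card : ℝ) - m a := by
      have h4 : ∑ ξ ∈ tbW X T v a b, (s ξ - m ξ) = ∑ ξ ∈ tbW X T v a b, (s ξ - m a) := by
        apply Finset.sum_congr rfl
        intro ξ hξ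
        have hξ' : ξ ∈ atom X (insert v T) a := (Finset.mem_filter.1 hξ).1
        rw [hm ξ, hm a, tb_meas X (insert v T) s hξ']
      rw [h4, Finset.sum_sub_distrib, Finset.sum_const, nsmul_eq_mul, sub_div]
      field_simp
    have h5 := tb_jensen_set (tbW X T v a b) h1 (fun ξ => s ξ - m ξ)
    rw [h3] at h5
    calc (m a - (∑ ξ ∈ tbW X T v a b, s ξ) / ((tbW X T v a b).card : ℝ)) ^ 2 =
        ((∑ ξ ∈ tbW X T v a b, s ξ) / ((tbW X T v a b).card : ℝ) - m a) ^ 2 := by ring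
      _ ≤ _ := h5
  have hrn : ∀ ζ, 0 ≤ r ζ := fun ζ => by rw [hr]; exact sq_nonneg _
  -- t3
  have ht3 : ((∑ ξ ∈ tbW X T v ω ω', s ξ) / ((tbW X T v ω ω').card : ℝ) -
      (∑ ξ ∈ tbW X T v ω' ω, s ξ) / ((tbW X T v ω' ω).card : ℝ)) ^ 2 ≤
      (4 / δ) * cE X (insert v T) (fun ξ => ∑ ζ ∈ atom X (univ.erase v) ξ, r ζ) ω := by
    obtain ⟨h1, h2⟩ := tbW_avg X δ hδ hO T v hv ω ω' hω
      (fun ξ => ∑ ζ ∈ atom X (univ.erase v) ξ, r ζ)
      (fun ξ => Finset.sum_nonneg fun ζ _ => hrn ζ)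
    have h3 : (4 / δ) * cE X (insert v T) (fun ξ => ∑ ζ ∈ atom X (univ.erase v) ξ, r ζ) ω =
        4 * ((1 / δ) * cE X (insert v T)
          (fun ξ => ∑ ζ ∈ atom X (univ.erase v) ξ, r ζ) ω) := by ring
    rw [h3]
    refine le_trans ?_ (mul_le_mul_of_nonneg_left h2 (by norm_num))
    rw [tbW_card X hX T v hv ω ω' hω, tbW_sum X hX T v hv ω ω' hω s, ← sub_div,
      ← Finset.sum_sub_distrib]
    refine (tb_jensen_set _ h1 _).trans ?_
    rw [← mul_div_assoc, Finset.mul_sum]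
    apply div_le_div_of_nonneg_right _ h1.le
    apply Finset.sum_le_sum
    intro ξ hξ
    have hs := tbphi_spec X T v ω ω' ξ hξ
    have hB : tbphi X v ω' ξ ∈ atom X (univ.erase v) ξ := by
      rw [tb_mem]
      intro w hw
      exact hs.2 w (Finset.ne_of_mem_erase hw)
    have e1 : r ξ ≤ ∑ ζ ∈ atom X (univ.erase v) ξ, r ζ :=
      Finset.single_le_sum (f := r) (fun ζ _ => hrn ζ) (tb_self X (univ.erase v) ξ)
    have e2 : r (tbphi X v ω' ξ) ≤ ∑ ζ ∈ atom X (univ.erase v) ξ, r ζ :=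
      Finset.single_le_sum (f := r) (fun ζ _ => hrn ζ) hB
    have e3 : cE X (univ.erase v) s (tbphi X v ω' ξ) = cE X (univ.erase v) s ξ :=
      tb_meas X (univ.erase v) s hB
    have e4 := hr ξ
    have e5 := hr (tbphi X v ω' ξ)
    rw [e3] at e5
    nlinarith [sq_nonneg ((s ξ - cE X (univ.erase v) s ξ) +
      (s (tbphi X v ω' ξ) - cE X (univ.erase v) s ξ))]
  have hA := ht2 ω ω' hω
  have hB := ht2 ω' ω hω'
  have key : ∀ t1 t2 t3 t4 t5 : ℝ, (t1 + t2 + t3 + t4 + t5) ^ 2 ≤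
      5 * (t1 ^ 2 + (t2 ^ 2 + (t3 ^ 2 + (t4 ^ 2 + t5 ^ 2)))) := by
    intro t1 t2 t3 t4 t5
    nlinarith [sq_nonneg (t1 - t2), sq_nonneg (t1 - t3), sq_nonneg (t1 - t4), sq_nonneg (t1 - t5),
      sq_nonneg (t2 - t3), sq_nonneg (t2 - t4), sq_nonneg (t2 - t5), sq_nonneg (t3 - t4),
      sq_nonneg (t3 - t5), sq_nonneg (t4 - t5)]
  have hk := key (g ω - m ω)
    (m ω - (∑ ξ ∈ tbW X T v ω ω', s ξ) / ((tbW X T v ω ω').card : ℝ))
    ((∑ ξ ∈ tbW X T v ω ω', s ξ) / ((tbW X T v ω ω').card : ℝ) -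
      (∑ ξ ∈ tbW X T v ω' ω, s ξ) / ((tbW X T v ω' ω).card : ℝ))
    ((∑ ξ ∈ tbW X T v ω' ω, s ξ) / ((tbW X T v ω' ω).card : ℝ) - m ω')
    (m ω' - g ω')
  have hsum : (g ω - m ω) +
    (m ω - (∑ ξ ∈ tbW X T v ω ω', s ξ) / ((tbW X T v ω ω').card : ℝ)) +
    ((∑ ξ ∈ tbW X T v ω ω', s ξ) / ((tbW X T v ω ω').card : ℝ) -
      (∑ ξ ∈ tbW X T v ω' ω, s ξ) / ((tbW X T v ω' ω).card : ℝ)) +
    ((∑ ξ ∈ tbW X T v ω' ω, s ξ) / ((tbW X T v ω' ω).card : ℝ) - m ω') +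
    (m ω' - g ω') = g ω - g ω' := by ring
  rw [hsum] at hk
  have f1 : ((∑ ξ ∈ tbW X T v ω' ω, s ξ) / ((tbW X T v ω' ω).card : ℝ) - m ω') ^ 2 =
    (m ω' - (∑ ξ ∈ tbW X T v ω' ω, s ξ) / ((tbW X T v ω' ω).card : ℝ)) ^ 2 := by ring
  have f2 : (m ω' - g ω') ^ 2 = (g ω' - m ω') ^ 2 := by ring
  rw [f1, f2] at hk
  refine hk.trans ?_
  apply mul_le_mul_of_nonneg_left _ (by norm_num)
  gcongr

theorem tb_sumQ [Fintype C] (X : Ω → V → C) (hX : Function.Injective X) (q : ℕ)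
    (hq : Fintype.card C ≤ q) (v : V) (r : Ω → ℝ) (hr : ∀ ω, 0 ≤ r ω) :
    ∑ ξ, ∑ ζ ∈ atom X (univ.erase v) ξ, r ζ ≤ (q : ℝ) * ∑ ξ, r ξ := by
  rw [tb_swap X (univ.erase v) (fun ξ ζ => r ζ), Finset.mul_sum]
  apply Finset.sum_le_sum
  intro ξ _
  rw [Finset.sum_const, nsmul_eq_mul]
  apply mul_le_mul_of_nonneg_right _ (hr ξ)
  have h1 : (atom X (univ.erase v) ξ).card ≤ (univ : Finset C).card := by
    apply Finset.card_le_card_of_injOn (fun ζ => X ζ v) (fun ζ _ => Finset.mem_coe.2 (Finset.mem_univ _))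
    intro a ha b hb hab
    have ha' := (tb_mem X (univ.erase v) ξ a).1 ha
    have hb' := (tb_mem X (univ.erase v) ξ b).1 hb
    apply hX
    funext w
    by_cases hw : w = v
    · subst hw
      exact hab
    · rw [ha' w (Finset.mem_erase.2 ⟨hw, Finset.mem_univ w⟩),
        hb' w (Finset.mem_erase.2 ⟨hw, Finset.mem_univ w⟩)]
  have h2 : (atom X (univ.erase v) ξ).card ≤ q := h1.trans hq
  exact_mod_cast h2

theorem two_block (q : ℕ) (β δ : ℝ) (hβ : 0 < β) (hδ : 0 < δ) :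
    ∃ K : ℝ, 1 ≤ K ∧ ∀ (Ω V C : Type) [Fintype Ω] [Fintype V] [DecidableEq V] [Fintype C]
      [DecidableEq C] (X : Ω → V → C), Function.Injective X → Fintype.card C ≤ q →
      MargB X β → OvB X δ → ∀ f : Ω → ℝ, (∀ ω, 0 < f ω) → ∀ (T : Finset V) (v : V), v ∉ T →
      hh X f (insert v T) - hh X f T ≤ K * ((hh X f univ - hh X f (univ.erase v)) +
        (hh X f univ - hh X f (insert v T))) := by
  refine ⟨(4 / β) * (5 * (2 + 2 / δ + 4 / δ * q)) + 1, ?_, ?_⟩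
  · have : 0 ≤ (4 / β) * (5 * (2 + 2 / δ + 4 / δ * q)) := by positivity
    linarith
  intro Ω V C _ _ _ _ _ X hX hq hM hO f hf T v hv
  have h1 := tb_a X β hβ hM f hf T v hv
  have h2 := tb_var_le_PS X T (fun ω => Real.sqrt (cE X (insert v T) f ω))
  have h3 := tbPS_mono X T _ _ (fun ω ω' hω => tb_pair X hX δ hδ hO T v hv
    (fun ω => Real.sqrt (f ω)) (fun ω => Real.sqrt (cE X (insert v T) f ω))
    (fun ω => cE X (insert v T) (fun ω => Real.sqrt (f ω)) ω)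
    (fun ω => (Real.sqrt (f ω) - cE X (univ.erase v) (fun ω => Real.sqrt (f ω)) ω) ^ 2)
    (fun _ => rfl) (fun _ => rfl) ω ω' hω)
  simp only [mul_add] at h3
  rw [tbPS_add, tbPS_add, tbPS_add, tbPS_add, tbPS_left, tbPS_left, tbPS_left, tbPS_right,
    tbPS_right] at h3
  simp only [← Finset.mul_sum] at h3
  rw [tb_avg, tb_avg] at h3
  have h4 := tb_gm X (insert v T) f hf
  have h5 := tb_ent_lower X hX f hf (insert v T)
  have h6 := tb_ent_lower X hX f hf (univ.erase v)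
  have h7 := tb_sumQ X hX q hq v
    (fun ω => (Real.sqrt (f ω) - cE X (univ.erase v) (fun ω => Real.sqrt (f ω)) ω) ^ 2)
    (fun ω => sq_nonneg _)
  have hSA : 0 ≤ ∑ ω, (Real.sqrt (f ω) -
      cE X (insert v T) (fun ξ => Real.sqrt (f ξ)) ω) ^ 2 :=
    Finset.sum_nonneg fun ω _ => sq_nonneg _
  have hSB : 0 ≤ ∑ ω, (Real.sqrt (f ω) -
      cE X (univ.erase v) (fun ξ => Real.sqrt (f ξ)) ω) ^ 2 :=
    Finset.sum_nonneg fun ω _ => sq_nonneg _
  set SA := ∑ ω, (Real.sqrt (f ω) - cE X (insert v T) (fun ξ => Real.sqrt (f ξ)) ω) ^ 2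
    with hSAd
  set SB := ∑ ω, (Real.sqrt (f ω) - cE X (univ.erase v) (fun ξ => Real.sqrt (f ξ)) ω) ^ 2
    with hSBd
  set XA := hh X f univ - hh X f (insert v T) with hXA
  set XB := hh X f univ - hh X f (univ.erase v) with hXB
  have h8 : (4 / δ) * ∑ ξ, ∑ ζ ∈ atom X (univ.erase v) ξ, (Real.sqrt (f ζ) -
      cE X (univ.erase v) (fun ω => Real.sqrt (f ω)) ζ) ^ 2 ≤ (4 / δ) * ((q : ℝ) * SB) :=
    mul_le_mul_of_nonneg_left h7 (by positivity)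
  have h9 : ∑ ω, (Real.sqrt (cE X (insert v T) f ω) -
        cE X T (fun ξ => Real.sqrt (cE X (insert v T) f ξ)) ω) ^ 2 ≤
      5 * (2 + 2 / δ + 4 / δ * q) * (XB + XA) := by
    have hqδ : 0 ≤ 4 / δ * (q : ℝ) := by positivity
    have h1δ : 0 ≤ 1 / δ := by positivity
    have e1 : (1 / δ) * SA ≤ (1 / δ) * XA := mul_le_mul_of_nonneg_left h5 h1δ
    have e2 : 4 / δ * (q : ℝ) * SB ≤ 4 / δ * (q : ℝ) * XB := mul_le_mul_of_nonneg_left h6 hqδ
    have e3 : 0 ≤ (2 / δ) * XB := mul_nonneg (by positivity) (hSB.trans h6)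
    have e4 : 0 ≤ 4 / δ * (q : ℝ) * XA := mul_nonneg hqδ (hSA.trans h5)
    have e5 : 0 ≤ XB := hSB.trans h6
    have e6 : 5 * (2 + 2 / δ + 4 / δ * q) * (XB + XA) =
        10 * XB + 10 * XA + 5 * ((2 / δ) * XB) + 10 * ((1 / δ) * XA) +
        5 * (4 / δ * (q : ℝ) * XB) + 5 * (4 / δ * (q : ℝ) * XA) := by ring
    rw [e6]
    have e7 : (4 / δ) * ((q : ℝ) * SB) = 4 / δ * (q : ℝ) * SB := by ring
    rw [e7] at h8
    linarith
  have h10 : (4 / β) * ∑ ω, (Real.sqrt (cE X (insert v T) f ω) -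
        cE X T (fun ξ => Real.sqrt (cE X (insert v T) f ξ)) ω) ^ 2 ≤
      (4 / β) * (5 * (2 + 2 / δ + 4 / δ * q) * (XB + XA)) :=
    mul_le_mul_of_nonneg_left h9 (by positivity)
  have h11 : 0 ≤ XB + XA := add_nonneg (hSB.trans h6) (hSA.trans h5)
  calc hh X f (insert v T) - hh X f T ≤ _ := h1
    _ ≤ (4 / β) * (5 * (2 + 2 / δ + 4 / δ * q) * (XB + XA)) := h10
    _ ≤ (4 / β * (5 * (2 + 2 / δ + 4 / δ * q)) + 1) * (XB + XA) := by
        have : (4 / β * (5 * (2 + 2 / δ + 4 / δ * q)) + 1) * (XB + XA) =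
          (4 / β) * (5 * (2 + 2 / δ + 4 / δ * q) * (XB + XA)) + (XB + XA) := by ring
        rw [this]
        linarith

end TB

end Pool.Agent.H983R2.GC
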